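import Pool.Agent.Lib.MP_50bb2e_nt.MT.Iface

/-! LOW: lower bound for the number of classes -/

open NumberField IsDedekindDomain Filter Topology

open scoped nonZeroDivisors

namespace Pool.Agent.Lib.MP_50bb2e_nt.MT.H43

open Pool.Agent.Lib.MP_50bb2e_nt.MT

namespace LowM

variable (F : Type) [Field F] [NumberField F]

/-- nonzero principal ideals of norm at most `X` -/
def prin (X : ℝ) : Set (Ideal (𝓞 F)) :=
  {I | I ∈ idealsLE F X ∧ ∃ a : 𝓞 F, I = Ideal.span {a}}

lemma absNorm_pos {I : Ideal (𝓞 F)} (hI : I ≠ ⊥) : 1 ≤ Ideal.absNorm I := by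
  refine Nat.one_le_iff_ne_zero.2 fun h => hI ?_
  exact Ideal.absNorm_eq_zero_iff.1 h

lemma ncard_eq (X : ℝ) : (prin F X).ncard =
    Nat.card {I : (Ideal (𝓞 F))⁰ // (Ideal.absNorm (I : Ideal (𝓞 F)) : ℝ) ≤ X ∧
      ClassGroup.mk0 I = 1} := by
  rw [← Nat.card_coe_set_eq]
  refine Nat.card_congr
    { toFun := fun y => ⟨⟨y.1, mem_nonZeroDivisors_iff_ne_zero.2 y.2.1.1⟩, y.2.1.2, ?_⟩
      invFun := fun x => ⟨x.1.1, ⟨nonZeroDivisors.ne_zero x.1.2, x.2.1⟩, ?_⟩
      left_inv := fun _ => rfl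
      right_inv := fun _ => rfl }
  · rw [ClassGroup.mk0_eq_one_iff]
    obtain ⟨a, ha⟩ := y.2.2
    exact ⟨a, ha⟩
  · have h := x.2.2
    have h2 : ClassGroup.mk0 (⟨x.1.1, x.1.2⟩ : (Ideal (𝓞 F))⁰) = 1 := h
    rw [ClassGroup.mk0_eq_one_iff] at h2
    obtain ⟨a, ha⟩ := h2
    exact ⟨a, ha⟩

lemma exists_lower : ∃ k : ℝ, 0 < k ∧ ∀ᶠ X : ℝ in atTop, k * X ≤ ((prin F X).ncard : ℝ) := by
  have h := Ideal.tendsto_norm_le_and_mk_eq_div_atTop F (C := 1)
  set L : ℝ := (2 ^ InfinitePlace.nrRealPlaces F * (2 * Real.pi) ^ InfinitePlace.nrComplexPlaces F *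
    Units.regulator F) / (Units.torsionOrder F * Real.sqrt |(discr F : ℤ)|) with hL
  have hpos : 0 < L := by
    have h1 : 0 < Units.regulator F := Units.regulator_pos F
    have h2 : (0 : ℝ) < Units.torsionOrder F := by
      exact_mod_cast Nat.pos_of_ne_zero (Units.torsionOrder_ne_zero F)
    have h3 : (0 : ℝ) < |((discr F : ℤ) : ℝ)| := by
      rw [abs_pos]
      exact_mod_cast discr_ne_zero F
    have h3' : (0 : ℝ) < ((|(discr F : ℤ)| : ℤ) : ℝ) := by
      exact_mod_cast abs_pos.2 (discr_ne_zero F)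
    have h4 := Real.sqrt_pos.2 h3'
    have h5 := Real.pi_pos
    rw [hL]
    positivity
  refine ⟨L / 2, by positivity, ?_⟩
  have hlt : L / 2 < L := by linarith
  filter_upwards [h.eventually (lt_mem_nhds hlt), eventually_gt_atTop 0] with X h1 h2
  rw [ncard_eq]
  rw [lt_div_iff₀ h2] at h1
  exact h1.le

end LowM

open LowM in
theorem low (h1 : CntS) (h2 : UppS) (h3 : SqtS) (h4 : PriS) : LowS := by
  classical
  intro F _ _
  obtain ⟨hfin, -, -⟩ := h1 F
  obtain ⟨hU, C, hC, hUC⟩ := h2 F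
  obtain ⟨k, hk, hkX⟩ := exists_lower F
  obtain ⟨B, hB⟩ := h3 F (k / (2 * C)) (by positivity)
  set U : ℝ → ℕ := fun Y => ({q : Quad F | (nrm (sp q) : ℝ) ≤ Y}).ncard with hUdef
  have hUmono : ∀ Y Z : ℝ, Y ≤ Z → U Y ≤ U Z := fun Y Z hYZ =>
    Set.ncard_le_ncard (fun q hq => le_trans hq hYZ) (hU Z)
  set M : ℕ := (idealsLE F B).ncard with hM
  refine ⟨k / (2 * (M + 1)), by positivity, ?_⟩
  filter_upwards [hkX, eventually_gt_atTop 0] with X hX hX0
  -- the finite set of the square roots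
  set J : Finset (Ideal (𝓞 F)) := (hfin X).toFinset with hJ
  have hPfin : (prin F X).Finite := (hfin X).subset fun I hI => hI.1
  have hJne : ∀ b ∈ J, b ≠ ⊥ := fun b hb => by
    rw [hJ, Set.Finite.mem_toFinset] at hb
    exact hb.1
  have hcount : (prin F X).ncard ≤ ∑ b ∈ J, U (X / (Ideal.absNorm b : ℝ) ^ 2) := by
    have hsub : hPfin.toFinset ⊆ J.biUnion fun b =>
        ((hU (X / (Ideal.absNorm b : ℝ) ^ 2)).toFinset).image
          fun q => (∏ v ∈ sp q, v.asIdeal) * b ^ 2 := by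
      intro I hI
      rw [Set.Finite.mem_toFinset] at hI
      obtain ⟨⟨hI0, hIX⟩, a, rfl⟩ := hI
      have ha : a ≠ 0 := by
        rintro rfl
        apply hI0
        simp
      obtain ⟨q, b, hb0, hqb, hN⟩ := h4 F a ha
      have hbpos : (1 : ℝ) ≤ (Ideal.absNorm b : ℝ) := by exact_mod_cast absNorm_pos F hb0
      have hN' : ((Ideal.absNorm (Ideal.span {a}) : ℕ) : ℝ) =
          (nrm (sp q) : ℝ) * (Ideal.absNorm b : ℝ) ^ 2 := by
        rw [hN]
        push_cast
        ring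
      have hIpos : 1 ≤ Ideal.absNorm (Ideal.span {a}) := absNorm_pos F hI0
      have hnrm : (1 : ℝ) ≤ (nrm (sp q) : ℝ) := by
        have : nrm (sp q) ≠ 0 := by
          intro h0
          rw [hN, h0] at hIpos
          simp at hIpos
        exact_mod_cast Nat.one_le_iff_ne_zero.2 this
      rw [hN'] at hIX
      rw [Finset.mem_biUnion]
      refine ⟨b, ?_, ?_⟩
      · rw [hJ, Set.Finite.mem_toFinset]
        refine ⟨hb0, ?_⟩
        nlinarith [mul_le_mul hnrm hbpos (by norm_num) (by linarith)]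
      · rw [Finset.mem_image]
        refine ⟨q, ?_, hqb.symm⟩
        rw [Set.Finite.mem_toFinset]
        show (nrm (sp q) : ℝ) ≤ _
        rw [le_div_iff₀ (by positivity)]
        exact hIX
    calc (prin F X).ncard = hPfin.toFinset.card := Set.ncard_eq_toFinset_card _ hPfin
      _ ≤ _ := Finset.card_le_card hsub
      _ ≤ ∑ b ∈ J, (((hU (X / (Ideal.absNorm b : ℝ) ^ 2)).toFinset).image
          fun q => (∏ v ∈ sp q, v.asIdeal) * b ^ 2).card := Finset.card_biUnion_le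
      _ ≤ ∑ b ∈ J, U (X / (Ideal.absNorm b : ℝ) ^ 2) := by
        refine Finset.sum_le_sum fun b _ => ?_
        refine Finset.card_image_le.trans ?_
        rw [hUdef]
        show _ ≤ ({q : Quad F | (nrm (sp q) : ℝ) ≤ X / (Ideal.absNorm b : ℝ) ^ 2}).ncard
        rw [Set.ncard_eq_toFinset_card _ (hU _)]
  have hcountR : ((prin F X).ncard : ℝ) ≤
      ∑ b ∈ J, (U (X / (Ideal.absNorm b : ℝ) ^ 2) : ℝ) := by exact_mod_cast hcount
  rw [← Finset.sum_filter_add_sum_filter_not J (fun b => (Ideal.absNorm b : ℝ) ≤ B)] at hcountR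
  have hfirst : ∑ b ∈ J.filter (fun b => (Ideal.absNorm b : ℝ) ≤ B),
      (U (X / (Ideal.absNorm b : ℝ) ^ 2) : ℝ) ≤ (M : ℝ) * U X := by
    have hle : ∀ b ∈ J.filter (fun b => (Ideal.absNorm b : ℝ) ≤ B),
        (U (X / (Ideal.absNorm b : ℝ) ^ 2) : ℝ) ≤ (U X : ℝ) := by
      intro b hb
      rw [Finset.mem_filter] at hb
      have hbpos : (1 : ℝ) ≤ (Ideal.absNorm b : ℝ) := by
        exact_mod_cast absNorm_pos F (hJne b hb.1)
      have : X / (Ideal.absNorm b : ℝ) ^ 2 ≤ X := by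
        rw [div_le_iff₀ (by positivity)]
        nlinarith [mul_le_mul hbpos hbpos (by norm_num) (by linarith)]
      exact_mod_cast hUmono _ _ this
    refine (Finset.sum_le_sum hle).trans ?_
    rw [Finset.sum_const, nsmul_eq_mul]
    refine mul_le_mul_of_nonneg_right ?_ (by positivity)
    have : J.filter (fun b => (Ideal.absNorm b : ℝ) ≤ B) ⊆ (hfin B).toFinset := by
      intro b hb
      rw [Finset.mem_filter] at hb
      rw [Set.Finite.mem_toFinset]
      exact ⟨hJne b hb.1, hb.2⟩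
    have h5 := Finset.card_le_card this
    rw [← Set.ncard_eq_toFinset_card _ (hfin B)] at h5
    exact_mod_cast h5
  have hsecond : ∑ b ∈ J.filter (fun b => ¬ (Ideal.absNorm b : ℝ) ≤ B),
      (U (X / (Ideal.absNorm b : ℝ) ^ 2) : ℝ) ≤ k / 2 * X := by
    have hle : ∀ b ∈ J.filter (fun b => ¬ (Ideal.absNorm b : ℝ) ≤ B),
        (U (X / (Ideal.absNorm b : ℝ) ^ 2) : ℝ) ≤
          C * X * (1 / (Ideal.absNorm b : ℝ) ^ 2) := by
      intro b _
      have := hUC (X / (Ideal.absNorm b : ℝ) ^ 2) (by positivity)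
      refine this.trans (le_of_eq ?_)
      ring
    refine (Finset.sum_le_sum hle).trans ?_
    rw [← Finset.mul_sum]
    have h6 := hB (J.filter (fun b => ¬ (Ideal.absNorm b : ℝ) ≤ B)) (by
      intro I hI
      rw [Finset.mem_filter] at hI
      exact ⟨hJne I hI.1, not_le.1 hI.2⟩)
    calc C * X * ∑ b ∈ J.filter (fun b => ¬ (Ideal.absNorm b : ℝ) ≤ B),
          (1 : ℝ) / (Ideal.absNorm b : ℝ) ^ 2 ≤ C * X * (k / (2 * C)) :=
          mul_le_mul_of_nonneg_left h6 (by positivity)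
      _ = k / 2 * X := by field_simp
  have hfin1 : k / 2 * X ≤ (M : ℝ) * U X := by linarith
  have hM1 : (0 : ℝ) < (M : ℝ) + 1 := by positivity
  have hUX : (0 : ℝ) ≤ (U X : ℝ) := by positivity
  show k / (2 * ((M : ℝ) + 1)) * X ≤ (U X : ℝ)
  have h7 : k / (2 * ((M : ℝ) + 1)) * X = (k / 2 * X) / ((M : ℝ) + 1) := by
    field_simp
  rw [h7, div_le_iff₀ hM1]
  nlinarith

end Pool.Agent.Lib.MP_50bb2e_nt.MT.H43
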